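import Mathlib
import Pool.Agent.H53.NA.Main

/-!
MP_e0acc1_al, Q1: the dimension of the variety `X_{n,k}(A,C)` of the nilpotent `(A,C)`-commutative
`n`-ary algebra structures on `ℂ^k` is

`k(k-1)/2 - min(a,k)(min(a,k)-1)/2 + ∑_{m=1}^{k-1} binom(m,a) binom(m+c-1,c) m^(n-a-c)`,

where `a = |A|` and `c = |C|`.

The definitions are in `Pool.Agent.H53.NA.Def`:
* `Alg n k`: the multilinear maps `(ℂ^k)^n → ℂ^k`;
* `IsCommutative A C μ`: `(A,C)`-commutative;
* `Monomial μ t x`: `x` is the value of a monomial with `t` applications of the multiplication `μ`;
  `IsNilpotent μ`: for some `m` all monomials with at least `m` applications are zero;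
* `coord μ`: the structure constants of `μ`, a point of the affine space of dimension `k^(n+1)`;
  `variety n k A C`: the set of the points `coord μ`, `μ` nilpotent and `(A,C)`-commutative;
* `HasDimension X D`: `D` is the largest number of polynomials which are algebraically independent as
  functions on `X` (the transcendence degree of the coordinate ring of `X`).

Proof: every nilpotent structure is strictly triangular with respect to a flag, and the last
`k - a + 1` members of the flag determine it enough; in the charts of the variety of these partial
flags all structures are images of polynomial maps from an affine space whose dimension is the number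
above (upper bound), and one such map has an injective differential at a point (lower bound).
-/

set_option autoImplicit false

namespace Pool.Agent.Results.MP_e0acc1_al.DimensionFormula

open Pool.Agent.H53.NA

/-- The dimension of the variety of the nilpotent `(A,C)`-commutative `n`-ary algebra structures on
`ℂ^k`. -/
theorem result (n k : ℕ) (hn : 2 ≤ n) (hk : 1 ≤ k) (A C : Finset (Fin n)) (hAC : Disjoint A C) :
    HasDimension (variety n k A C)
      (k * (k - 1) / 2 - min A.card k * (min A.card k - 1) / 2 +
        ∑ m ∈ Finset.Ico 1 k, m.choose A.card *
          ((m + C.card - 1).choose C.card * m ^ (n - A.card - C.card))) := by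
  have h := main (n := n) (k := k) (A := A) (C := C) (by omega) (by omega) hAC
  have h1 : (∑ m ∈ Finset.range k, m.choose A.card * (m.multichoose C.card *
        m ^ (n - A.card - C.card))) = ∑ m ∈ Finset.Ico 1 k, m.choose A.card *
          ((m + C.card - 1).choose C.card * m ^ (n - A.card - C.card)) := by
    rw [Finset.range_eq_Ico, Finset.sum_eq_sum_Ico_succ_bot (by omega)]
    have h2 : (0 : ℕ).choose A.card * ((0 : ℕ).multichoose C.card *
        0 ^ (n - A.card - C.card)) = 0 := by
      rcases Nat.eq_zero_or_pos A.card with ha | ha
      · rcases Nat.eq_zero_or_pos C.card with hc | hc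
        · rw [ha, hc, Nat.sub_zero, Nat.sub_zero, zero_pow (by omega)]
          simp
        · obtain ⟨c, hc'⟩ := Nat.exists_eq_succ_of_ne_zero hc.ne'
          rw [hc', Nat.multichoose_zero_succ]
          simp
      · rw [Nat.choose_eq_zero_of_lt ha, zero_mul]
    rw [h2, zero_add]
    refine Finset.sum_congr rfl fun m _ => ?_
    rw [Nat.multichoose_eq]
  rwa [h1] at h

end Pool.Agent.Results.MP_e0acc1_al.DimensionFormula
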